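import Mathlib

set_option autoImplicit false
set_option maxSynthPendingDepth 3

namespace Pool.Agent.Results.MP_1fb722_al.OmegaOrder

/-- `x` divides `y` inside the monoid `Γ` -/
def Div (Γ : AddSubmonoid ℕ) (x y : ℕ) : Prop := ∃ s ∈ Γ, y = x + s

/-- the omega-primality value of `x` in `Γ` -/
noncomputable def omegaVal (Γ : AddSubmonoid ℕ) (x : ℕ) : ℕ :=
  sInf {N | 0 < N ∧ ∀ s : Multiset ℕ, (∀ a ∈ s, a ∈ Γ) → Div Γ x s.sum →
    ∃ t ≤ s, Multiset.card t ≤ N ∧ Div Γ x t.sum}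

section
variable (n1 n2 n3 : ℕ)

/-- divisibility in coordinates -/
def D (x a b c : ℕ) : Prop :=
  ∃ u v w, a * n1 + b * n2 + c * n3 = x + (u * n1 + v * n2 + w * n3)

/-- the omega property in coordinates -/
def P (x N : ℕ) : Prop :=
  ∀ a b c, D n1 n2 n3 x a b c →
    ∃ a' ≤ a, ∃ b' ≤ b, ∃ c' ≤ c, a' + b' + c' ≤ N ∧ D n1 n2 n3 x a' b' c'

variable {n1 n2 n3}

lemma mem_iff (x : ℕ) : x ∈ AddSubmonoid.closure ({n1, n2, n3} : Set ℕ) ↔
    ∃ u v w, x = u * n1 + v * n2 + w * n3 := by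
  constructor
  · intro h
    induction h using AddSubmonoid.closure_induction with
    | mem x hx =>
      rcases hx with rfl | rfl | rfl
      exacts [⟨1, 0, 0, by simp⟩, ⟨0, 1, 0, by simp⟩, ⟨0, 0, 1, by simp⟩]
    | zero => exact ⟨0, 0, 0, by simp⟩
    | add x y _ _ hx hy =>
      obtain ⟨u, v, w, rfl⟩ := hx
      obtain ⟨u', v', w', rfl⟩ := hy
      exact ⟨u + u', v + v', w + w', by ring⟩
  · rintro ⟨u, v, w, rfl⟩
    refine add_mem (add_mem ?_ ?_) ?_
    · exact nsmul_mem (AddSubmonoid.subset_closure (by simp)) u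
    · exact nsmul_mem (AddSubmonoid.subset_closure (by simp)) v
    · exact nsmul_mem (AddSubmonoid.subset_closure (by simp)) w

lemma div_iff (x a b c : ℕ) :
    Div (AddSubmonoid.closure ({n1, n2, n3} : Set ℕ)) x (a * n1 + b * n2 + c * n3) ↔
      D n1 n2 n3 x a b c := by
  simp only [Div, D, mem_iff]
  exact ⟨fun ⟨_, ⟨u, v, w, h⟩, h'⟩ => ⟨u, v, w, h ▸ h'⟩, fun ⟨u, v, w, h⟩ => ⟨_, ⟨u, v, w, rfl⟩, h⟩⟩

lemma D.mono {x a b c a' b' c' : ℕ} (h : D n1 n2 n3 x a b c) (ha : a ≤ a') (hb : b ≤ b')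
    (hc : c ≤ c') : D n1 n2 n3 x a' b' c' := by
  obtain ⟨u, v, w, h⟩ := h
  obtain ⟨i, rfl⟩ := Nat.exists_eq_add_of_le ha
  obtain ⟨j, rfl⟩ := Nat.exists_eq_add_of_le hb
  obtain ⟨k, rfl⟩ := Nat.exists_eq_add_of_le hc
  exact ⟨u + i, v + j, w + k, by linarith⟩

lemma cover (s : Multiset ℕ) :
    (∀ y ∈ s, y ∈ AddSubmonoid.closure ({n1, n2, n3} : Set ℕ)) →
    ∃ a b c, s.sum = a * n1 + b * n2 + c * n3 ∧ ∀ a' ≤ a, ∀ b' ≤ b, ∀ c' ≤ c,
      ∃ t ≤ s, Multiset.card t ≤ a' + b' + c' ∧ ∃ i j k,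
        t.sum = (a' + i) * n1 + (b' + j) * n2 + (c' + k) * n3 := by
  induction s using Multiset.induction_on with
  | empty =>
    intro _
    refine ⟨0, 0, 0, by simp, fun a' ha b' hb c' hc => ⟨0, le_rfl, by simp, 0, 0, 0, ?_⟩⟩
    rw [Nat.le_zero.mp ha, Nat.le_zero.mp hb, Nat.le_zero.mp hc]
    simp
  | cons y s ih =>
    intro h
    obtain ⟨a, b, c, h1, h2⟩ := ih fun z hz => h z (Multiset.mem_cons_of_mem hz)
    obtain ⟨u, v, w, hy⟩ := (mem_iff y).mp (h y (Multiset.mem_cons_self _ _))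
    refine ⟨a + u, b + v, c + w, by rw [Multiset.sum_cons, h1, hy]; ring,
      fun a' ha b' hb c' hc => ?_⟩
    by_cases hle : a' ≤ a ∧ b' ≤ b ∧ c' ≤ c
    · obtain ⟨t, t1, t2⟩ := h2 a' hle.1 b' hle.2.1 c' hle.2.2
      exact ⟨t, t1.trans (Multiset.le_cons_self _ _), t2⟩
    · obtain ⟨t, t1, t2, i, j, k, t3⟩ := h2 (a' - u) (by omega) (b' - v) (by omega) (c' - w)
        (by omega)
      refine ⟨y ::ₘ t, Multiset.cons_le_cons _ t1, by rw [Multiset.card_cons]; omega,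
        a' - u + i + u - a', b' - v + j + v - b', c' - w + k + w - c', ?_⟩
      rw [Multiset.sum_cons, t3, hy, show a' + (a' - u + i + u - a') = a' - u + i + u by omega,
        show b' + (b' - v + j + v - b') = b' - v + j + v by omega,
        show c' + (c' - w + k + w - c') = c' - w + k + w by omega]
      ring

lemma P_iff (x N : ℕ) :
    (∀ s : Multiset ℕ, (∀ a ∈ s, a ∈ AddSubmonoid.closure ({n1, n2, n3} : Set ℕ)) →
      Div (AddSubmonoid.closure ({n1, n2, n3} : Set ℕ)) x s.sum →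
      ∃ t ≤ s, Multiset.card t ≤ N ∧
        Div (AddSubmonoid.closure ({n1, n2, n3} : Set ℕ)) x t.sum) ↔ P n1 n2 n3 x N := by
  constructor
  · intro h a b c hD
    obtain ⟨t, t1, t2, t3⟩ := h
      (Multiset.replicate a n1 + (Multiset.replicate b n2 + Multiset.replicate c n3))
      (fun y hy => by
        apply AddSubmonoid.subset_closure
        simp only [Multiset.mem_add] at hy
        rcases hy with hy | hy | hy <;> simp [Multiset.eq_of_mem_replicate hy])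
      (by simpa [add_assoc] using (div_iff x a b c).mpr hD)
    have split : ∀ t s1 s2 : Multiset ℕ, t ≤ s1 + s2 → ∃ t1 ≤ s1, ∃ t2 ≤ s2, t = t1 + t2 := by
      intro t s1 s2 h
      refine ⟨t ∩ s1, Multiset.inter_le_right, t - s1, ?_, ?_⟩
      · exact tsub_le_iff_left.mpr h
      · rw [add_comm]; exact (Multiset.sub_add_inter t s1).symm
    obtain ⟨t1, k1, t', k2, rfl⟩ := split _ _ _ t1
    obtain ⟨t2, k3, t3, k4, rfl⟩ := split _ _ _ k2
    obtain ⟨a', ha, rfl⟩ := Multiset.le_replicate_iff.mp k1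
    obtain ⟨b', hb, rfl⟩ := Multiset.le_replicate_iff.mp k3
    obtain ⟨c', hc, rfl⟩ := Multiset.le_replicate_iff.mp k4
    exact ⟨a', ha, b', hb, c', hc, by simpa [add_assoc] using t2,
      (div_iff x a' b' c').mp (by simpa [add_assoc] using t3)⟩
  · intro h s hs hd
    obtain ⟨a, b, c, h1, h2⟩ := cover s hs
    rw [h1, div_iff] at hd
    obtain ⟨a', ha, b', hb, c', hc, k1, k2⟩ := h a b c hd
    obtain ⟨t, t1, t2, i, j, k, t3⟩ := h2 a' ha b' hb c' hc
    refine ⟨t, t1, t2.trans k1, ?_⟩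
    rw [t3, div_iff]
    exact k2.mono (by omega) (by omega) (by omega)

lemma d3a (h0 : 0 < n1) : D n1 n2 n3 n3 n3 0 0 := by
  obtain ⟨k, rfl⟩ : ∃ k, n1 = k + 1 := ⟨n1 - 1, by omega⟩
  exact ⟨0, 0, k, by ring⟩

lemma d3b (h0 : 0 < n2) : D n1 n2 n3 n3 0 n3 0 := by
  obtain ⟨k, rfl⟩ : ∃ k, n2 = k + 1 := ⟨n2 - 1, by omega⟩
  exact ⟨0, 0, k, by ring⟩

lemma P3 (h0 : 0 < n1) (h1 : 0 < n2) : P n1 n2 n3 n3 (2 * n3 + 1) := by
  intro a b c h
  by_cases hc : 1 ≤ c
  · exact ⟨0, by omega, 0, by omega, 1, hc, by omega, 0, 0, 0, by ring⟩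
  by_cases ha : n3 ≤ a
  · exact ⟨n3, ha, 0, by omega, 0, by omega, by omega, d3a h0⟩
  by_cases hb : n3 ≤ b
  · exact ⟨0, by omega, n3, hb, 0, by omega, by omega, d3b h1⟩
  exact ⟨a, le_rfl, b, le_rfl, c, le_rfl, by omega, h⟩

lemma caseA (h0 : 0 < n1) (h1 : n1 < n2) (h2 : n2 < n3) {N : ℕ} (hN : 0 < N)
    (hR : ∀ p q, 0 < p → p * n2 = q * n3 → D n1 n2 n3 n1 0 p 0) (h : P n1 n2 n3 n3 N) :
    P n1 n2 n3 n1 N := by
  have key : ∀ b c, D n1 n2 n3 n1 0 b c →
      (∀ b' ≤ b, ∀ c' ≤ c, b' + c' < b + c → ¬ D n1 n2 n3 n1 0 b' c') → b + c ≤ N := by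
    rintro b c ⟨u, v, w, e⟩ hmin
    rcases b with _ | b <;> rcases c with _ | c
    · omega
    · have hw : w = 0 := by
        rcases w with _ | w
        · rfl
        · exact absurd ⟨u, v, w, by linarith⟩ (hmin 0 le_rfl c (by omega) (by omega))
      subst hw
      obtain ⟨a', ha, b', hb, c', hc, k1, d1, d2, d3, k2⟩ := h (u + 1) v 0 ⟨0, 0, c, by linarith⟩
      obtain rfl : c' = 0 := by omega
      obtain ⟨i, hi⟩ := Nat.exists_eq_add_of_le ha
      obtain ⟨j, rfl⟩ := Nat.exists_eq_add_of_le hb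
      have e2 : c * n3 = (i + d1) * n1 + (j + d2) * n2 + d3 * n3 := by
        have : (u + 1) * n1 = (a' + i) * n1 := by rw [hi]
        linarith
      have hm := hmin 0 le_rfl c (by omega) (by omega)
      have hi0 : i + d1 = 0 := by
        by_contra hne
        obtain ⟨z, hz⟩ : ∃ z, i + d1 = z + 1 := ⟨i + d1 - 1, by omega⟩
        exact hm ⟨z, j + d2, d3, by rw [hz] at e2; linarith⟩
      rw [hi0] at e2
      rcases Nat.eq_zero_or_pos (j + d2) with hj | hj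
      · by_contra hlt
        have : u + 1 + b' ≤ c := by omega
        obtain rfl : j = 0 := by omega
        nlinarith
      · have hd : d3 ≤ c := by
          by_contra hlt
          nlinarith
        obtain ⟨q, rfl⟩ := Nat.exists_eq_add_of_le hd
        obtain ⟨u', v', w', e3⟩ := hR (j + d2) q hj (by linarith)
        exact absurd ⟨u', v', w' + d3, by linarith⟩ hm
    · obtain ⟨a', ha, b', hb, c', hc, k1, d1, d2, d3, k2⟩ := h 0 n3 0 (d3b (by omega))
      obtain rfl : a' = 0 := by omega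
      obtain rfl : c' = 0 := by omega
      by_contra hlt
      have hm := hmin b' (by omega) 0 le_rfl (by omega)
      rcases d1 with _ | d1
      · have hd : d2 < b' := by
          by_contra hlt
          nlinarith
        obtain ⟨p, rfl⟩ := Nat.exists_eq_add_of_lt hd
        exact hm ((hR (p + 1) (d3 + 1) (by omega) (by linarith)).mono le_rfl (by omega) le_rfl)
      · exact hm ⟨d1, d2, d3 + 1, by linarith⟩
    · have hw : w = 0 := by
        rcases w with _ | w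
        · rfl
        · exact absurd ⟨u, v, w, by linarith⟩ (hmin (b + 1) le_rfl c (by omega) (by omega))
      have hv : v = 0 := by
        rcases v with _ | v
        · rfl
        · exact absurd ⟨u, v, w, by linarith⟩ (hmin b (by omega) (c + 1) le_rfl (by omega))
      subst hw hv
      obtain ⟨a', ha, b', hb, c', hc, k1, d1, d2, d3, k2⟩ :=
        h (u + 1) 0 0 ⟨0, b + 1, c, by linarith⟩
      obtain rfl : b' = 0 := by omega
      obtain rfl : c' = 0 := by omega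
      obtain ⟨i, hi⟩ := Nat.exists_eq_add_of_le ha
      rcases i with _ | i
      · by_contra hlt
        have : u + 1 ≤ b + 1 + (c + 1) := by omega
        nlinarith
      · have : (u + 1) * n1 = (a' + (i + 1)) * n1 := by rw [hi]
        exact absurd ⟨i + d1, d2, d3, by linarith⟩ (hmin (b + 1) le_rfl c (by omega) (by omega))
  intro a b c hD
  rcases a with _ | a
  · induction hs : b + c using Nat.strong_induction_on generalizing b c with
    | _ s ih =>
      by_cases hmin : ∀ b' ≤ b, ∀ c' ≤ c, b' + c' < b + c → ¬ D n1 n2 n3 n1 0 b' c'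
      · exact ⟨0, le_rfl, b, le_rfl, c, le_rfl, by simpa using key b c hD hmin, hD⟩
      · push Not at hmin
        obtain ⟨b', hb, c', hc, hlt, hD'⟩ := hmin
        obtain ⟨a1, k1, b1, k2, c1, k3, k4⟩ := ih _ (hs ▸ hlt) b' c' hD' rfl
        exact ⟨a1, k1, b1, k2.trans hb, c1, k3.trans hc, k4⟩
  · exact ⟨1, by omega, 0, by omega, 0, by omega, by omega, 0, 0, 0, by ring⟩

lemma caseB (h0 : 0 < n1) {g q0 p0 : ℕ} (hg : 0 < g) (hq : 0 < q0) (h2 : q0 < p0)
    (hc : Nat.Coprime p0 q0) (hc' : Nat.Coprime g n1) {N : ℕ} (hN : 0 < N)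
    (hR : ¬ D n1 (g * q0) (g * p0) n1 0 p0 0) (h : P n1 (g * q0) (g * p0) (g * p0) N) :
    P n1 (g * q0) (g * p0) (g * q0) N := by
  have hg1 : D n1 (g * q0) (g * p0) (g * q0) g 0 0 := by
    obtain ⟨β, hβ, e⟩ : ∃ β < q0, β * p0 ≡ n1 [MOD q0] := by
      obtain ⟨m, hm⟩ := Nat.exists_mul_mod_eq_of_coprime n1 hc hq.ne'
      exact ⟨m, hm.1, by rw [mul_comm]; exact hm.2⟩
    by_cases hle : n1 ≤ β * p0
    · obtain ⟨α, hα⟩ := (Nat.modEq_iff_dvd' hle).mp e.symm
      obtain ⟨γ, rfl⟩ := Nat.exists_eq_add_of_lt hβ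
      obtain ⟨g', rfl⟩ : ∃ k, g = k + 1 := ⟨g - 1, by omega⟩
      have e2 : β * p0 = n1 + (β + γ + 1) * α := by omega
      refine absurd ⟨g', α, γ + 1, ?_⟩ hR
      linear_combination (g' + 1) * e2
    · obtain ⟨α, hα⟩ := (Nat.modEq_iff_dvd' (not_le.mp hle).le).mp e
      have e2 : n1 = β * p0 + q0 * α := by omega
      rcases α with _ | α
      · omega
      · exact ⟨0, α, β, by rw [e2]; ring⟩
  have l1 : g ≤ N := by
    obtain ⟨a', ha, b', hb, c', hc, k1, d1, d2, d3, k2⟩ := h _ 0 0 (d3a h0)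
    obtain rfl : b' = 0 := by omega
    obtain rfl : c' = 0 := by omega
    have hp : 0 < g * p0 := Nat.mul_pos hg (by omega)
    have hd : d1 < a' := by
      by_contra hlt
      have := Nat.mul_le_mul_right n1 (not_lt.mp hlt)
      omega
    obtain ⟨z, rfl⟩ := Nat.exists_eq_add_of_lt hd
    have : g ∣ (z + 1) * n1 := ⟨p0 + d2 * q0 + d3 * p0, by linarith⟩
    have := Nat.le_of_dvd (by omega) (hc'.dvd_of_dvd_mul_right this)
    omega
  have l2 : q0 ≤ N := by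
    obtain ⟨a', ha, b', hb, c', hc2, k1, d1, d2, d3, k2⟩ := h 0 _ 0 (d3b (Nat.mul_pos hg hq))
    obtain rfl : a' = 0 := by omega
    obtain rfl : c' = 0 := by omega
    by_contra hlt
    rcases d1 with _ | d1
    · have hp : 0 < g * p0 := Nat.mul_pos hg (by omega)
      have hd : d2 < b' := by
        by_contra hlt
        have := Nat.mul_le_mul_right (g * q0) (not_lt.mp hlt)
        omega
      obtain ⟨z, rfl⟩ := Nat.exists_eq_add_of_lt hd
      have e2 : (z + 1) * q0 = p0 * (d3 + 1) := Nat.eq_of_mul_eq_mul_left hg (by linarith)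
      have := Nat.le_of_dvd (by omega) (hc.dvd_of_dvd_mul_right ⟨_, e2⟩)
      omega
    · exact hR (D.mono (a := 0) (b := b') (c := 0) ⟨d1, d2, d3 + 1, by linarith⟩ le_rfl
        (by omega) le_rfl)
  intro a b c hD
  by_cases hb : 1 ≤ b
  · exact ⟨0, by omega, 1, hb, 0, by omega, by omega, 0, 0, 0, by ring⟩
  by_cases ha : g ≤ a
  · exact ⟨g, ha, 0, by omega, 0, by omega, by omega, hg1⟩
  by_cases hcq : q0 ≤ c
  · obtain ⟨p', rfl⟩ : ∃ k, p0 = k + 1 := ⟨p0 - 1, by omega⟩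
    exact ⟨0, by omega, 0, by omega, q0, hcq, by omega, 0, p', 0, by ring⟩
  exfalso
  obtain rfl : b = 0 := by omega
  obtain ⟨u, v, w, e⟩ := hD
  rcases lt_trichotomy u a with hu | rfl | hu
  · obtain ⟨z, rfl⟩ := Nat.exists_eq_add_of_lt hu
    have e2 : (z + 1) * n1 + g * (c * p0) = g * (q0 + v * q0 + w * p0) := by linarith
    have : g ∣ (z + 1) * n1 := (Nat.dvd_add_left ⟨_, rfl⟩).mp ⟨_, e2⟩
    have := Nat.le_of_dvd (by omega) (hc'.dvd_of_dvd_mul_right this)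
    omega
  · have e2 : c * p0 = (v + 1) * q0 + w * p0 := Nat.eq_of_mul_eq_mul_left hg (by linarith)
    have hd : w < c := by
      by_contra hlt
      nlinarith
    obtain ⟨z, rfl⟩ := Nat.exists_eq_add_of_lt hd
    have := Nat.le_of_dvd (by omega)
      (hc.symm.dvd_of_dvd_mul_right (⟨v + 1, by linarith⟩ : q0 ∣ (z + 1) * p0))
    omega
  · obtain ⟨z, rfl⟩ := Nat.exists_eq_add_of_lt hu
    obtain ⟨y, rfl⟩ := Nat.exists_eq_add_of_lt (not_le.mp hcq)
    exact hR ⟨z, v + 1, w + y + 1, by linarith⟩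

end

lemma main {n1 n2 n3 : ℕ} (h0 : 0 < n1) (h1 : n1 < n2) (h2 : n2 < n3)
    (hg : Nat.gcd n1 (Nat.gcd n2 n3) = 1) :
    omegaVal (AddSubmonoid.closure {n1, n2, n3}) n1 ≤
        omegaVal (AddSubmonoid.closure {n1, n2, n3}) n3 ∨
      omegaVal (AddSubmonoid.closure {n1, n2, n3}) n2 ≤
        omegaVal (AddSubmonoid.closure {n1, n2, n3}) n3 := by
  simp only [omegaVal, P_iff]
  obtain ⟨k1, k2⟩ := Nat.sInf_mem (s := {N | 0 < N ∧ P n1 n2 n3 n3 N})
    ⟨2 * n3 + 1, by omega, P3 h0 (by omega)⟩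
  by_cases hR : ∀ p q, 0 < p → p * n2 = q * n3 → D n1 n2 n3 n1 0 p 0
  · exact Or.inl (Nat.sInf_le ⟨k1, caseA h0 h1 h2 k1 hR k2⟩)
  · push Not at hR
    obtain ⟨p, q, hp, e, hR⟩ := hR
    obtain ⟨g, q0, p0, g0, hc, rfl, rfl⟩ :=
      Nat.exists_coprime' (Nat.gcd_pos_of_pos_left n3 (show 0 < n2 by omega))
    rw [Nat.gcd_mul_right, hc, one_mul] at hg
    rw [mul_comm q0 g, mul_comm p0 g] at *
    have hq : 0 < q0 := Nat.pos_of_ne_zero (by rintro rfl; omega)
    have e2 : p * q0 = p0 * q := Nat.eq_of_mul_eq_mul_left g0 (by linarith)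
    have hle := Nat.le_of_dvd hp (hc.symm.dvd_of_dvd_mul_right ⟨_, e2⟩)
    exact Or.inr (Nat.sInf_le ⟨k1, caseB h0 g0 hq (lt_of_mul_lt_mul_left h2 (Nat.zero_le _))
      hc.symm (Nat.Coprime.symm hg) k1 (fun h => hR (h.mono le_rfl hle le_rfl)) k2⟩)

theorem result (n1 n2 n3 : ℕ) (h0 : 0 < n1) (h1 : n1 < n2) (h2 : n2 < n3)
    (hg : Nat.gcd n1 (Nat.gcd n2 n3) = 1) (Γ : AddSubmonoid ℕ)
    (hΓ : Γ = AddSubmonoid.closure {n1, n2, n3}) :
    ¬ (omegaVal Γ n1 > omegaVal Γ n2 ∧ omegaVal Γ n2 > omegaVal Γ n3) ∧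
      ¬ (omegaVal Γ n1 = omegaVal Γ n2 ∧ omegaVal Γ n2 > omegaVal Γ n3) ∧
      ¬ (omegaVal Γ n3 < omegaVal Γ n1 ∧ omegaVal Γ n1 < omegaVal Γ n2) := by
  have := main h0 h1 h2 hg
  rw [← hΓ] at this
  omega

end Pool.Agent.Results.MP_1fb722_al.OmegaOrder
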